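import Mathlib
import Pool.Agent.H54.Q.Core

/-! # Patterns of nonattacking queens and the packing number `Q n` -/

set_option autoImplicit false

namespace H54.Q9

/-- two squares lie on a common row, column or diagonal (of either direction) -/
def Attack {n : ℕ} (p q : Fin n × Fin n) : Prop :=
  p.1 = q.1 ∨ p.2 = q.2 ∨ (p.1 : ℤ) - (p.2 : ℤ) = (q.1 : ℤ) - (q.2 : ℤ) ∨
    (p.1 : ℤ) + (p.2 : ℤ) = (q.1 : ℤ) + (q.2 : ℤ)

/-- a pattern of `n` nonattacking queens on the `n × n` board -/
def IsPattern (n : ℕ) (s : Finset (Fin n × Fin n)) : Prop :=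
  s.card = n ∧ ∀ p ∈ s, ∀ q ∈ s, p ≠ q → ¬ Attack p q

/-- a family of pairwise disjoint patterns -/
def IsPacking (n : ℕ) (F : Finset (Finset (Fin n × Fin n))) : Prop :=
  (∀ s ∈ F, IsPattern n s) ∧ ∀ s ∈ F, ∀ t ∈ F, s ≠ t → Disjoint s t

/-- the largest number of pairwise disjoint patterns of `n` nonattacking queens on the `n × n`
board -/
noncomputable def Q (n : ℕ) : ℕ := sSup {k | ∃ F, IsPacking n F ∧ F.card = k}

theorem bdd (n : ℕ) : BddAbove {k | ∃ F, IsPacking n F ∧ F.card = k} := by
  refine ⟨Fintype.card (Finset (Fin n × Fin n)), ?_⟩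
  rintro k ⟨F, -, rfl⟩
  exact Finset.card_le_univ F

theorem card_le_Q {n : ℕ} {F : Finset (Finset (Fin n × Fin n))} (hF : IsPacking n F) :
    F.card ≤ Q n := le_csSup (bdd n) ⟨F, hF, rfl⟩

theorem Q_le {n k : ℕ} (h : ∀ F, IsPacking n F → F.card ≤ k) : Q n ≤ k := by
  refine csSup_le ⟨0, ∅, ⟨by simp, by simp⟩, rfl⟩ ?_
  rintro _ ⟨F, hF, rfl⟩
  exact h F hF

theorem row_ex {n : ℕ} {s : Finset (Fin n × Fin n)} (hs : IsPattern n s) (i : Fin n) :
    ∃ j, (i, j) ∈ s := by
  have hinj : Set.InjOn Prod.fst (s : Set (Fin n × Fin n)) := by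
    intro p hp q hq h
    by_contra hne
    exact hs.2 p hp q hq hne (Or.inl h)
  have hcard : (s.image Prod.fst).card = Fintype.card (Fin n) := by
    rw [Finset.card_image_of_injOn hinj, hs.1, Fintype.card_fin]
  have huniv := Finset.eq_univ_of_card _ hcard
  have hi : i ∈ s.image Prod.fst := by rw [huniv]; exact Finset.mem_univ i
  obtain ⟨p, hp, hpi⟩ := Finset.mem_image.1 hi
  refine ⟨p.2, ?_⟩
  rw [← hpi]; exact hp

theorem col_ex {n : ℕ} {s : Finset (Fin n × Fin n)} (hs : IsPattern n s) (j : Fin n) :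
    ∃ i, (i, j) ∈ s := by
  have hinj : Set.InjOn Prod.snd (s : Set (Fin n × Fin n)) := by
    intro p hp q hq h
    by_contra hne
    exact hs.2 p hp q hq hne (Or.inr (Or.inl h))
  have hcard : (s.image Prod.snd).card = Fintype.card (Fin n) := by
    rw [Finset.card_image_of_injOn hinj, hs.1, Fintype.card_fin]
  have huniv := Finset.eq_univ_of_card _ hcard
  have hi : j ∈ s.image Prod.snd := by rw [huniv]; exact Finset.mem_univ j
  obtain ⟨p, hp, hpi⟩ := Finset.mem_image.1 hi
  refine ⟨p.1, ?_⟩
  rw [← hpi]; exact hp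

theorem packing_card_le {n : ℕ} (hn : 1 ≤ n) {F : Finset (Finset (Fin n × Fin n))}
    (hF : IsPacking n F) : F.card ≤ n := by
  classical
  let i : Fin n := ⟨0, hn⟩
  have h : ∀ s : Finset (Fin n × Fin n), ∃ j : Fin n, s ∈ F → (i, j) ∈ s := by
    intro s
    by_cases hs : s ∈ F
    · obtain ⟨j, hj⟩ := row_ex (hF.1 s hs) i
      exact ⟨j, fun _ => hj⟩
    · exact ⟨i, fun h => absurd h hs⟩
  choose g hg using h
  calc F.card ≤ (Finset.univ : Finset (Fin n)).card := by
        refine Finset.card_le_card_of_injOn g (fun s _ => Finset.mem_coe.2 (Finset.mem_univ _)) ?_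
        intro s hs t ht hst
        by_contra hne
        have hd := hF.2 s hs t ht hne
        have h1 := hg s hs
        have h2 := hg t ht
        rw [← hst] at h2
        exact (Finset.disjoint_left.1 hd h1) h2
    _ = n := by simp

theorem Q_le_self {n : ℕ} (hn : 1 ≤ n) : Q n ≤ n := Q_le (fun _ hF => packing_card_le hn hF)

open H54.Q in
/-- a proper `n`-colouring of the queens graph is a partition of the board into patterns -/
theorem Q_eq_of_SQ {n : ℕ} (hn : 1 ≤ n) (h : SQ n) : Q n = n := by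
  classical
  refine le_antisymm (Q_le_self hn) ?_
  obtain ⟨f, hf, hp⟩ := h
  let cls : ℕ → Finset (Fin n × Fin n) := fun k =>
    Finset.univ.filter (fun p : Fin n × Fin n => f p.1 p.2 = k)
  have hcls : ∀ k, ∀ p ∈ cls k, ∀ q ∈ cls k, p ≠ q → ¬ Attack p q := by
    intro k p hp1 q hq1 hne hatt
    have hp2 : f p.1 p.2 = k := (Finset.mem_filter.1 hp1).2
    have hq2 : f q.1 q.2 = k := (Finset.mem_filter.1 hq1).2
    have hA : Att p.1 p.2 q.1 q.2 := by
      rcases hatt with h | h | h | h
      · left; exact congrArg _ h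
      · right; left; exact congrArg _ h
      · right; right; left; omega
      · right; right; right; omega
    obtain ⟨h1, h2⟩ := hp p.1 p.2 q.1 q.2 p.1.2 p.2.2 q.1.2 q.2.2 (hp2.trans hq2.symm) hA
    exact hne (Prod.ext (Fin.ext h1) (Fin.ext h2))
  have hle : ∀ k, (cls k).card ≤ n := by
    intro k
    calc (cls k).card ≤ (Finset.univ : Finset (Fin n)).card := by
          refine Finset.card_le_card_of_injOn Prod.fst
            (fun s _ => Finset.mem_coe.2 (Finset.mem_univ _)) ?_
          intro p hp q hq h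
          by_contra hne
          exact hcls k p hp q hq hne (Or.inl h)
      _ = n := by simp
  have hsum : ∑ k ∈ Finset.range n, (cls k).card = ∑ _k ∈ Finset.range n, n := by
    have h1 : (Finset.univ : Finset (Fin n × Fin n)).card =
        ∑ k ∈ Finset.range n, (cls k).card := by
      refine Finset.card_eq_sum_card_fiberwise (fun p _ => ?_)
      simp only [Finset.coe_range, Set.mem_Iio]
      exact hf _ _ p.1.2 p.2.2
    rw [← h1]; simp
  have hcard : ∀ k ∈ Finset.range n, (cls k).card = n :=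
    (Finset.sum_eq_sum_iff_of_le (fun k _ => hle k)).1 hsum
  have hinj : Set.InjOn cls (Finset.range n : Set ℕ) := by
    intro k hk l hl hkl
    have hne : (cls k).Nonempty := by
      rw [← Finset.card_pos, hcard k hk]; exact hn
    obtain ⟨p, hp1⟩ := hne
    have h1 : f p.1 p.2 = k := (Finset.mem_filter.1 hp1).2
    rw [hkl] at hp1
    have h2 : f p.1 p.2 = l := (Finset.mem_filter.1 hp1).2
    exact h1.symm.trans h2
  have hpack : IsPacking n ((Finset.range n).image cls) := by
    constructor
    · intro s hs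
      obtain ⟨k, hk, rfl⟩ := Finset.mem_image.1 hs
      exact ⟨hcard k hk, hcls k⟩
    · intro s hs t ht hne
      obtain ⟨k, hk, rfl⟩ := Finset.mem_image.1 hs
      obtain ⟨l, hl, rfl⟩ := Finset.mem_image.1 ht
      rw [Finset.disjoint_left]
      intro p hp1 hp2
      have h1 : f p.1 p.2 = k := (Finset.mem_filter.1 hp1).2
      have h2 : f p.1 p.2 = l := (Finset.mem_filter.1 hp2).2
      apply hne
      rw [← h1, ← h2]
  have h := card_le_Q hpack
  rwa [Finset.card_image_of_injOn hinj, Finset.card_range] at h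

end H54.Q9
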