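import Pool.Agent.H54.Q9.Tab
import Pool.Agent.H54.Q9.Basic

set_option autoImplicit false
set_option maxRecDepth 100000

namespace H54.Q9

/-- enumeration of all patterns of nine queens -/
def en : ℕ → ℕ → ℕ → ℕ → ℕ → ℕ → List ℕ
  | 0, _, _, _, _, acc => [acc]
  | k + 1, r, cm, dm, em, acc =>
    (List.range 9).flatMap (fun j =>
      bif Nat.testBit cm j || Nat.testBit dm (r + j) || Nat.testBit em (r + 9 - j) then []
      else en k (r + 1) (cm ||| 1 <<< j) (dm ||| 1 <<< (r + j)) (em ||| 1 <<< (r + 9 - j))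
        (acc ||| 1 <<< (9 * r + j)))

theorem en_eq : en 9 0 0 0 0 0 = LL := by decide +kernel

theorem tab_eq : (List.range 81).map (fun c => LL.filter (fun m => Nat.testBit m c)) = TT := by
  decide +kernel

theorem testBit_or_shift (a c d : ℕ) :
    (a ||| 1 <<< c).testBit d = true ↔ (a.testBit d = true ∨ d = c) := by
  rw [Nat.testBit_or, Nat.one_shiftLeft, Nat.testBit_two_pow]
  simp only [Bool.or_eq_true, decide_eq_true_eq]
  constructor
  · rintro (h | h)
    · exact Or.inl h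
    · exact Or.inr h.symm
  · rintro (h | h)
    · exact Or.inl h
    · exact Or.inr h.symm

theorem en_complete (g : ℕ → ℕ) (hg : ∀ r < 9, g r < 9)
    (h1 : ∀ r < 9, ∀ r' < 9, r ≠ r' → g r ≠ g r')
    (h2 : ∀ r < 9, ∀ r' < 9, r ≠ r' → r + g r ≠ r' + g r')
    (h3 : ∀ r < 9, ∀ r' < 9, r ≠ r' → r + g r' ≠ r' + g r) :
    ∀ (k r cm dm em acc : ℕ), k + r = 9 →
    (∀ j, cm.testBit j = true → ∃ r' < r, g r' = j) →
    (∀ j, dm.testBit j = true → ∃ r' < r, r' + g r' = j) →
    (∀ j, em.testBit j = true → ∃ r' < r, r' + 9 - g r' = j) →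
    (∀ c, acc.testBit c = true ↔ ∃ r' < r, c = 9 * r' + g r') →
    ∃ m ∈ en k r cm dm em acc, ∀ c, m.testBit c = true ↔ ∃ r' < 9, c = 9 * r' + g r' := by
  intro k
  induction k with
  | zero =>
    intro r cm dm em acc hk hcm hdm hem hacc
    have hr : r = 9 := by omega
    subst hr
    exact ⟨acc, by simp [en], hacc⟩
  | succ k ih =>
    intro r cm dm em acc hk hcm hdm hem hacc
    have hr : r < 9 := by omega
    have hgr := hg r hr
    obtain ⟨m, hm, hmc⟩ := ih (r + 1) (cm ||| 1 <<< (g r)) (dm ||| 1 <<< (r + g r))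
      (em ||| 1 <<< (r + 9 - g r)) (acc ||| 1 <<< (9 * r + g r)) (by omega)
      (by
        intro j hj
        rcases (testBit_or_shift _ _ _).1 hj with h | h
        · obtain ⟨r', hr', h'⟩ := hcm j h
          exact ⟨r', by omega, h'⟩
        · exact ⟨r, by omega, h.symm⟩)
      (by
        intro j hj
        rcases (testBit_or_shift _ _ _).1 hj with h | h
        · obtain ⟨r', hr', h'⟩ := hdm j h
          exact ⟨r', by omega, h'⟩
        · exact ⟨r, by omega, h.symm⟩)
      (by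
        intro j hj
        rcases (testBit_or_shift _ _ _).1 hj with h | h
        · obtain ⟨r', hr', h'⟩ := hem j h
          exact ⟨r', by omega, h'⟩
        · exact ⟨r, by omega, h.symm⟩)
      (by
        intro c
        rw [testBit_or_shift, hacc]
        constructor
        · rintro (⟨r', hr', h⟩ | h)
          · exact ⟨r', by omega, h⟩
          · exact ⟨r, by omega, h⟩
        · rintro ⟨r', hr', h⟩
          by_cases e : r' = r
          · subst e; exact Or.inr h
          · exact Or.inl ⟨r', by omega, h⟩)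
    refine ⟨m, ?_, hmc⟩
    rw [en, List.mem_flatMap]
    refine ⟨g r, List.mem_range.2 hgr, ?_⟩
    have hb : (Nat.testBit cm (g r) || Nat.testBit dm (r + g r) ||
        Nat.testBit em (r + 9 - g r)) = false := by
      rw [Bool.or_eq_false_iff, Bool.or_eq_false_iff]
      refine ⟨⟨?_, ?_⟩, ?_⟩
      · by_contra hc
        obtain ⟨r', hr', h⟩ := hcm _ (by simpa using hc)
        exact h1 r' (by omega) r hr (by omega) h
      · by_contra hc
        obtain ⟨r', hr', h⟩ := hdm _ (by simpa using hc)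
        exact h2 r' (by omega) r hr (by omega) h
      · by_contra hc
        obtain ⟨r', hr', h⟩ := hem _ (by simpa using hc)
        have := hg r' (by omega)
        exact h3 r' (by omega) r hr (by omega) (by omega)
    rw [hb]
    exact hm

/-- the number of a square -/
def bit (p : Fin 9 × Fin 9) : ℕ := 9 * (p.1 : ℕ) + (p.2 : ℕ)

theorem bit_lt (p : Fin 9 × Fin 9) : bit p < 81 := by
  have := p.1.2; have := p.2.2; unfold bit; omega

theorem bit_inj {p q : Fin 9 × Fin 9} (h : bit p = bit q) : p = q := by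
  have h1 := p.1.2; have h2 := p.2.2; have h3 := q.1.2; have h4 := q.2.2
  unfold bit at h
  exact Prod.ext (Fin.ext (by omega)) (Fin.ext (by omega))

/-- the bit mask `m` represents the set `s` of squares -/
def Rep (m : ℕ) (s : Finset (Fin 9 × Fin 9)) : Prop :=
  ∀ c, m.testBit c = true ↔ ∃ p ∈ s, bit p = c

theorem rep_ex {s : Finset (Fin 9 × Fin 9)} (hs : IsPattern 9 s) : ∃ m ∈ LL, Rep m s := by
  classical
  choose g0 hg0 using row_ex hs
  let g : ℕ → ℕ := fun r => if h : r < 9 then (g0 ⟨r, h⟩ : ℕ) else 0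
  have hgr : ∀ r (h : r < 9), g r = (g0 ⟨r, h⟩ : ℕ) := fun r h => by simp [g, h]
  have hne : ∀ r r' (h : r < 9) (h' : r' < 9), r ≠ r' →
      ((⟨r, h⟩, g0 ⟨r, h⟩) : Fin 9 × Fin 9) ≠ (⟨r', h'⟩, g0 ⟨r', h'⟩) := by
    intro r r' h h' hne e
    exact hne (congrArg (fun p : Fin 9 × Fin 9 => (p.1 : ℕ)) e)
  obtain ⟨m, hm, hmc⟩ := en_complete g (fun r h => by rw [hgr r h]; exact (g0 ⟨r, h⟩).2)
    (by
      intro r h r' h' hrr e
      rw [hgr r h, hgr r' h'] at e
      exact hs.2 _ (hg0 ⟨r, h⟩) _ (hg0 ⟨r', h'⟩) (hne r r' h h' hrr)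
        (Or.inr (Or.inl (Fin.ext e))))
    (by
      intro r h r' h' hrr e
      rw [hgr r h, hgr r' h'] at e
      refine hs.2 _ (hg0 ⟨r, h⟩) _ (hg0 ⟨r', h'⟩) (hne r r' h h' hrr)
        (Or.inr (Or.inr (Or.inr ?_)))
      simp only
      omega)
    (by
      intro r h r' h' hrr e
      rw [hgr r h, hgr r' h'] at e
      refine hs.2 _ (hg0 ⟨r, h⟩) _ (hg0 ⟨r', h'⟩) (hne r r' h h' hrr)
        (Or.inr (Or.inr (Or.inl ?_)))
      simp only
      omega)
    9 0 0 0 0 0 rfl (by simp) (by simp) (by simp) (by simp)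
  rw [en_eq] at hm
  refine ⟨m, hm, fun c => ?_⟩
  rw [hmc c]
  constructor
  · rintro ⟨r, hr, h⟩
    refine ⟨(⟨r, hr⟩, g0 ⟨r, hr⟩), hg0 ⟨r, hr⟩, ?_⟩
    rw [h, hgr r hr]; rfl
  · rintro ⟨p, hp, h⟩
    refine ⟨p.1, p.1.2, ?_⟩
    rw [← h, hgr _ p.1.2]
    unfold bit
    have : p = (p.1, g0 p.1) := by
      by_contra hne
      exact hs.2 p hp _ (hg0 p.1) hne (Or.inl rfl)
    have h2 : (p.2 : ℕ) = (g0 p.1 : ℕ) := congrArg (fun p : Fin 9 × Fin 9 => (p.2 : ℕ)) this
    rw [h2]

theorem mem_TT {m c : ℕ} (hm : m ∈ LL) (hc : c < 81) (h : m.testBit c = true) :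
    m ∈ TT.getD c [] := by
  rw [← tab_eq]
  have hlen : c < ((List.range 81).map (fun c => LL.filter (fun m => Nat.testBit m c))).length := by
    simpa using hc
  rw [List.getD_eq_getElem _ _ hlen, List.getElem_map, List.getElem_range]
  exact List.mem_filter.2 ⟨hm, h⟩

end H54.Q9
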