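import Pool.Agent.H54.Q9.Sound

set_option autoImplicit false
set_option maxRecDepth 100000

namespace H54.Q9

/-- the columns of the queens of seven disjoint patterns -/
def col7 (k i : ℕ) : ℕ :=
  (([[0, 2, 5, 7, 1, 3, 8, 6, 4], [1, 3, 0, 6, 8, 5, 2, 4, 7], [2, 5, 7, 4, 0, 8, 6, 1, 3],
   [4, 6, 1, 5, 2, 0, 7, 3, 8], [5, 0, 6, 3, 7, 2, 4, 8, 1], [6, 8, 3, 1, 4, 7, 5, 0, 2],
   [7, 4, 2, 8, 6, 1, 3, 5, 0]] : List (List ℕ)).getD k []).getD i 0

theorem col7_lt : ∀ k < 7, ∀ i < 9, col7 k i < 9 := by decide +kernel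

theorem col7_pat1 : ∀ k < 7, ∀ i < 9, ∀ j < 9, i = j ∨ col7 k i ≠ col7 k j := by
  decide +kernel

theorem col7_pat2 : ∀ k < 7, ∀ i < 9, ∀ j < 9, i = j ∨ i + col7 k i ≠ j + col7 k j := by
  decide +kernel

theorem col7_pat3 : ∀ k < 7, ∀ i < 9, ∀ j < 9, i = j ∨ i + col7 k j ≠ j + col7 k i := by
  decide +kernel

theorem col7_dis : ∀ k < 7, ∀ l < 7, k ≠ l → ∀ i < 9, col7 k i ≠ col7 l i := by decide +kernel

theorem Q9_ge : 7 ≤ Q 9 := by
  classical
  let g : Fin 7 → Fin 9 → Fin 9 := fun k i => ⟨col7 k i, col7_lt k k.2 i i.2⟩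
  let P : Fin 7 → Finset (Fin 9 × Fin 9) := fun k => Finset.univ.image (fun i => (i, g k i))
  have hmem : ∀ k p, p ∈ P k ↔ (p.2 : ℕ) = col7 k p.1 := by
    intro k p
    simp only [P, Finset.mem_image, Finset.mem_univ, true_and]
    constructor
    · rintro ⟨i, rfl⟩; rfl
    · intro h
      exact ⟨p.1, Prod.ext rfl (Fin.ext h.symm)⟩
  have hdis : ∀ k l, k ≠ l → Disjoint (P k) (P l) := by
    intro k l hkl
    rw [Finset.disjoint_left]
    intro p hp hq
    rw [hmem] at hp hq
    exact col7_dis k k.2 l l.2 (fun e => hkl (Fin.ext e)) p.1 p.1.2 (hp.symm.trans hq)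
  have hne : ∀ k, (P k).Nonempty := fun k => Finset.Nonempty.image Finset.univ_nonempty _
  have hinj : Function.Injective P := by
    intro k l h
    by_contra hkl
    have := hdis k l hkl
    rw [h, disjoint_self] at this
    exact (hne l).ne_empty this
  have hpack : IsPacking 9 (Finset.univ.image P) := by
    constructor
    · intro s hs
      obtain ⟨k, -, rfl⟩ := Finset.mem_image.1 hs
      constructor
      · rw [Finset.card_image_of_injective _ (fun i j h => congrArg Prod.fst h),
          Finset.card_univ, Fintype.card_fin]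
      · intro p hp q hq hpq hatt
        rw [hmem] at hp hq
        have h1 : (p.1 : ℕ) ≠ q.1 := by
          intro e
          apply hpq
          refine Prod.ext (Fin.ext e) (Fin.ext ?_)
          rw [hp, hq, e]
        have h2 := (col7_pat1 k k.2 p.1 p.1.2 q.1 q.1.2).resolve_left h1
        have h3 := (col7_pat2 k k.2 p.1 p.1.2 q.1 q.1.2).resolve_left h1
        have h4 := (col7_pat3 k k.2 p.1 p.1.2 q.1 q.1.2).resolve_left h1
        rw [← hp, ← hq] at h2 h3 h4
        rcases hatt with h | h | h | h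
        · exact h1 (congrArg _ h)
        · exact h2 (congrArg _ h)
        · omega
        · omega
    · intro s hs t ht hst
      obtain ⟨k, -, rfl⟩ := Finset.mem_image.1 hs
      obtain ⟨l, -, rfl⟩ := Finset.mem_image.1 ht
      exact hdis k l (fun e => hst (by rw [e]))
  have h2 := card_le_Q hpack
  rw [Finset.card_image_of_injective _ hinj, Finset.card_univ, Fintype.card_fin] at h2
  exact h2

theorem Q_nine : Q 9 = 7 := le_antisymm Q9_le Q9_ge

end H54.Q9
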