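import Pool.Agent.H54.Q9.Tab
import Pool.Agent.H54.Q9.Cert

set_option autoImplicit false
set_option maxRecDepth 100000

namespace H54.Q9

/-- the search: `go f cert used ur uc` returns the rest of the certificate if the
subtree is refuted -/
def go : ℕ → List ℕ → ℕ → ℕ → ℕ → Option (List ℕ)
  | 0, _, _, _, _ => none
  | _ + 1, [], _, _, _ => none
  | f + 1, c :: rest, used, ur, uc =>
    bif Nat.testBit used c || Nat.ble 81 c then none else
      (TT.getD c []).foldl (fun acc m =>
        match acc with
        | none => none
        | some l => bif Nat.beq (Nat.land m used) 0 then go f l (Nat.lor used m) ur uc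
                    else some l)
        (bif Nat.testBit ur (c / 9) || Nat.testBit uc (c % 9) then some rest
         else go f rest (Nat.lor used (1 <<< c)) (Nat.lor ur (1 <<< (c / 9)))
            (Nat.lor uc (1 <<< (c % 9))))

theorem go_check : (go 20 CC 0 0 0).isSome = true := by decide +kernel

end H54.Q9
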