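import Pool.Agent.H54.Q9.Search
import Pool.Agent.H54.Q9.En

set_option autoImplicit false
set_option maxRecDepth 100000

namespace H54.Q9

/-- the state of the search: `used` is a union of patterns of `F` and of uncovered squares -/
def Inv (F : Finset (Finset (Fin 9 × Fin 9))) (used ur uc : ℕ) : Prop :=
  (∀ s ∈ F, (∀ p ∈ s, used.testBit (bit p) = true) ∨ (∀ p ∈ s, used.testBit (bit p) = false)) ∧
  (∀ p : Fin 9 × Fin 9, (∀ s ∈ F, p ∉ s) →
    (ur.testBit p.1 = true → used.testBit (bit p) = true) ∧
    (uc.testBit p.2 = true → used.testBit (bit p) = true))

theorem foldl_some {α β : Type*} (g : Option α → β → Option α) (hg : ∀ b, g none b = none)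
    (l : List β) : ∀ (x : Option α) (y : α), l.foldl g x = some y →
    (∃ a, x = some a) ∧ ∀ b ∈ l, ∃ a z, g (some a) b = some z := by
  induction l with
  | nil =>
    intro x y h
    exact ⟨⟨y, h⟩, by simp⟩
  | cons b l ih =>
    intro x y h
    rw [List.foldl_cons] at h
    obtain ⟨⟨a, ha⟩, h2⟩ := ih _ _ h
    cases x with
    | none => rw [hg] at ha; exact absurd ha (by simp)
    | some x0 =>
      refine ⟨⟨x0, rfl⟩, ?_⟩
      intro b' hb'
      rcases List.mem_cons.1 hb' with rfl | hb'
      · exact ⟨x0, a, ha⟩
      · exact h2 b' hb'

theorem lor_testBit (a b c : ℕ) : (Nat.lor a b).testBit c = (a.testBit c || b.testBit c) :=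
  Nat.testBit_or a b c

theorem go_sound {F : Finset (Finset (Fin 9 × Fin 9))} (hF : IsPacking 9 F)
    (hrow : ∀ p q : Fin 9 × Fin 9, (∀ s ∈ F, p ∉ s) → (∀ s ∈ F, q ∉ s) → p.1 = q.1 → p = q)
    (hcol : ∀ p q : Fin 9 × Fin 9, (∀ s ∈ F, p ∉ s) → (∀ s ∈ F, q ∉ s) → p.2 = q.2 → p = q) :
    ∀ (f : ℕ) (cert : List ℕ) (used ur uc : ℕ) (rest : List ℕ),
      go f cert used ur uc = some rest → ¬ Inv F used ur uc := by
  intro f
  induction f with
  | zero => intro cert used ur uc rest h; simp [go] at h
  | succ f ih =>
    intro cert used ur uc rest h hI
    cases cert with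
    | nil => simp [go] at h
    | cons c cr =>
      rw [go] at h
      by_cases hcond : (Nat.testBit used c || Nat.ble 81 c) = true
      · rw [hcond] at h; simp at h
      · rw [Bool.not_eq_true] at hcond
        rw [hcond, cond_false] at h
        rw [Bool.or_eq_false_iff] at hcond
        obtain ⟨hcu, hc81⟩ := hcond
        have hc : c < 81 := by
          by_contra hge
          have := Nat.ble_eq_true_of_le (not_lt.1 hge)
          rw [hc81] at this; exact absurd this (by simp)
        obtain ⟨h0, hl⟩ := foldl_some _ (fun b => rfl) _ _ _ h
        let pc : Fin 9 × Fin 9 := (⟨c / 9, by omega⟩, ⟨c % 9, by omega⟩)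
        have hpc : bit pc = c := by
          show 9 * (c / 9) + c % 9 = c
          omega
        by_cases hcov : ∃ s ∈ F, pc ∈ s
        · -- the square is covered by a pattern of the family
          obtain ⟨s, hs, hps⟩ := hcov
          obtain ⟨m, hm, hrep⟩ := rep_ex (hF.1 s hs)
          have hmc : m.testBit c = true := (hrep c).2 ⟨pc, hps, hpc⟩
          have hfree : ∀ p ∈ s, used.testBit (bit p) = false := by
            rcases hI.1 s hs with h1 | h1
            · have := h1 pc hps
              rw [hpc, hcu] at this; exact absurd this (by simp)
            · exact h1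
          obtain ⟨a, z, haz⟩ := hl m (mem_TT hm hc hmc)
          have hland : Nat.land m used = 0 := by
            apply Nat.eq_of_testBit_eq
            intro i
            rw [Nat.zero_testBit]
            change (m &&& used).testBit i = false
            rw [Nat.testBit_and]
            by_contra hne
            rw [Bool.not_eq_false, Bool.and_eq_true] at hne
            obtain ⟨p, hp, hpi⟩ := (hrep i).1 hne.1
            have := hfree p hp
            rw [hpi, hne.2] at this; exact absurd this (by simp)
          have haz' : go f a (Nat.lor used m) ur uc = some z := by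
            have hb : Nat.beq (Nat.land m used) 0 = true := by rw [hland]; rfl
            simp only [hb, cond_true] at haz
            exact haz
          refine ih a (Nat.lor used m) ur uc z haz' ⟨?_, ?_⟩
          · intro t ht
            by_cases hts : t = s
            · subst hts
              left
              intro p hp
              rw [lor_testBit, (hrep (bit p)).2 ⟨p, hp, rfl⟩]; simp
            · rcases hI.1 t ht with h1 | h1
              · left; intro p hp; rw [lor_testBit, h1 p hp]; simp
              · right; intro p hp
                rw [lor_testBit, h1 p hp, Bool.false_or]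
                by_contra hne
                rw [Bool.not_eq_false] at hne
                obtain ⟨q, hq, hqp⟩ := (hrep _).1 hne
                have := bit_inj hqp
                subst this
                exact (Finset.disjoint_left.1 (hF.2 t ht s hs hts) hp) hq
          · intro p hp
            obtain ⟨h1, h2⟩ := hI.2 p hp
            exact ⟨fun e => by rw [lor_testBit, h1 e]; simp,
              fun e => by rw [lor_testBit, h2 e]; simp⟩
        · -- the square is uncovered
          have hunc : ∀ s ∈ F, pc ∉ s := fun s hs hps => hcov ⟨s, hs, hps⟩
          obtain ⟨h1, h2⟩ := hI.2 pc hunc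
          rw [hpc] at h1 h2
          have hr : ur.testBit (c / 9) = false := by
            by_contra hne
            rw [Bool.not_eq_false] at hne
            have := h1 hne
            rw [hcu] at this; exact absurd this (by simp)
          have hcl : uc.testBit (c % 9) = false := by
            by_contra hne
            rw [Bool.not_eq_false] at hne
            have := h2 hne
            rw [hcu] at this; exact absurd this (by simp)
          obtain ⟨a, ha⟩ := h0
          rw [hr, hcl, Bool.or_false, cond_false] at ha
          have key : ∀ x y z : ℕ, (Nat.lor x (1 <<< y)).testBit z = true ↔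
              (x.testBit z = true ∨ z = y) := fun x y z => testBit_or_shift x y z
          refine ih cr _ _ _ a ha ⟨?_, ?_⟩
          · intro t ht
            rcases hI.1 t ht with h3 | h3
            · left; intro p hp; rw [key]; exact Or.inl (h3 p hp)
            · right; intro p hp
              by_contra hne
              rw [Bool.not_eq_false, key] at hne
              rcases hne with h4 | h4
              · rw [h3 p hp] at h4; exact absurd h4 (by simp)
              · rw [← hpc] at h4
                have := bit_inj h4
                subst this
                exact hunc t ht hp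
          · intro p hp
            obtain ⟨h3, h4⟩ := hI.2 p hp
            constructor
            · intro e
              rw [key] at e ⊢
              rcases e with e | e
              · exact Or.inl (h3 e)
              · right
                have : p = pc := hrow p pc hp hunc (Fin.ext e)
                rw [this, hpc]
            · intro e
              rw [key] at e ⊢
              rcases e with e | e
              · exact Or.inl (h4 e)
              · right
                have : p = pc := hcol p pc hp hunc (Fin.ext e)
                rw [this, hpc]

theorem no_eight {F : Finset (Finset (Fin 9 × Fin 9))} (hF : IsPacking 9 F) (h8 : F.card = 8) :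
    False := by
  classical
  have aux : ∀ (g : Finset (Fin 9 × Fin 9) → Fin 9), (∀ s ∈ F, ∀ t ∈ F, g s = g t → s = t) →
      ∀ a b : Fin 9, (∀ s ∈ F, g s ≠ a) → (∀ s ∈ F, g s ≠ b) → a = b := by
    intro g hg a b ha hb
    by_contra hne
    have h1 : F.card ≤ ((Finset.univ.erase a).erase b : Finset (Fin 9)).card := by
      refine Finset.card_le_card_of_injOn g ?_ ?_
      · intro s hs
        simp only [Finset.coe_erase, Set.mem_diff, Finset.mem_coe, Finset.mem_univ,
          Set.mem_singleton_iff]
        exact ⟨⟨trivial, ha s hs⟩, hb s hs⟩
      · intro s hs t ht h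
        exact hg s hs t ht h
    rw [Finset.card_erase_of_mem (Finset.mem_erase.2 ⟨fun h => hne h.symm, Finset.mem_univ b⟩),
      Finset.card_erase_of_mem (Finset.mem_univ a), Finset.card_univ, Fintype.card_fin] at h1
    omega
  have hrow : ∀ p q : Fin 9 × Fin 9, (∀ s ∈ F, p ∉ s) → (∀ s ∈ F, q ∉ s) → p.1 = q.1 →
      p = q := by
    intro p q hp hq hpq
    have h : ∀ s : Finset (Fin 9 × Fin 9), ∃ j : Fin 9, s ∈ F → (p.1, j) ∈ s := by
      intro s
      by_cases hs : s ∈ F
      · obtain ⟨j, hj⟩ := row_ex (hF.1 s hs) p.1
        exact ⟨j, fun _ => hj⟩
      · exact ⟨0, fun h => absurd h hs⟩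
    choose g hg using h
    refine Prod.ext hpq (aux g ?_ _ _ ?_ ?_)
    · intro s hs t ht hst
      by_contra hne
      have h2 := hg t ht
      rw [← hst] at h2
      exact (Finset.disjoint_left.1 (hF.2 s hs t ht hne) (hg s hs)) h2
    · intro s hs e
      have := hg s hs
      rw [e] at this
      exact hp s hs this
    · intro s hs e
      have := hg s hs
      rw [e, hpq] at this
      exact hq s hs this
  have hcol : ∀ p q : Fin 9 × Fin 9, (∀ s ∈ F, p ∉ s) → (∀ s ∈ F, q ∉ s) → p.2 = q.2 →
      p = q := by
    intro p q hp hq hpq
    have h : ∀ s : Finset (Fin 9 × Fin 9), ∃ i : Fin 9, s ∈ F → (i, p.2) ∈ s := by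
      intro s
      by_cases hs : s ∈ F
      · obtain ⟨j, hj⟩ := col_ex (hF.1 s hs) p.2
        exact ⟨j, fun _ => hj⟩
      · exact ⟨0, fun h => absurd h hs⟩
    choose g hg using h
    refine Prod.ext (aux g ?_ _ _ ?_ ?_) hpq
    · intro s hs t ht hst
      by_contra hne
      have h2 := hg t ht
      rw [← hst] at h2
      exact (Finset.disjoint_left.1 (hF.2 s hs t ht hne) (hg s hs)) h2
    · intro s hs e
      have := hg s hs
      rw [e] at this
      exact hp s hs this
    · intro s hs e
      have := hg s hs
      rw [e, hpq] at this
      exact hq s hs this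
  obtain ⟨rest, hrest⟩ := Option.isSome_iff_exists.1 go_check
  refine go_sound hF hrow hcol 20 CC 0 0 0 rest hrest ⟨?_, ?_⟩
  · intro s _
    right; intro p _; simp
  · intro p _
    exact ⟨fun e => by simp at e, fun e => by simp at e⟩

theorem Q9_le : Q 9 ≤ 7 := by
  refine Q_le (fun F hF => ?_)
  by_contra hlt
  obtain ⟨G, hGF, hG⟩ := Finset.exists_subset_card_eq (show 8 ≤ F.card by omega)
  exact no_eight ⟨fun s hs => hF.1 s (hGF hs), fun s hs t ht => hF.2 s (hGF hs) t (hGF ht)⟩ hG

end H54.Q9
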